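import Pool.Agent.Q293.TI.Sym

/-!
# Two colours: random triples, then stepping up
-/

set_option autoImplicit false

namespace Pool.Agent.Q293.TI

open Finset

theorem card_const {X : Type} [Fintype X] [DecidableEq X] (Y : Finset X) (c : Bool) :
    (univ.filter (fun χ : X → Bool => ∀ y ∈ Y, χ y = c)).card * 2 ^ Y.card =
      2 ^ Fintype.card X := by
  classical
  have h1 : (univ.filter (fun χ : X → Bool => ∀ y ∈ Y, χ y = c)) =
      Fintype.piFinset (fun p : X => if p ∈ Y then {c} else univ) := by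
    ext χ
    simp only [mem_filter, mem_univ, true_and, Fintype.mem_piFinset]
    constructor
    · intro h p
      split_ifs with hp
      · rw [mem_singleton]; exact h p hp
      · exact mem_univ _
    · intro h y hy
      have := h y
      rw [if_pos hy, mem_singleton] at this
      exact this
  rw [h1, Fintype.card_piFinset]
  have h2 : ∀ p : X, (if p ∈ Y then ({c} : Finset Bool) else univ).card
      = if p ∈ Y then 1 else 2 := by
    intro p
    split_ifs
    · exact card_singleton _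
    · rfl
  simp only [h2]
  rw [prod_ite, prod_const_one, one_mul, prod_const, ← pow_add]
  congr 1
  have h3 : (univ.filter (fun p => p ∉ Y)) = univ \ Y := by
    ext p
    simp
  rw [h3, card_sdiff_of_subset (subset_univ _), card_univ]
  have := card_le_univ Y
  omega

theorem exists_triples (M n : ℕ) (h : 2 * M ^ n < 2 ^ n.choose 3) :
    ∃ φ : Finset ℕ → Bool, ∀ L ⊆ range M, L.card = n → ¬ Homogeneous 3 φ L := by
  classical
  by_contra hcon
  push Not at hcon
  let X := {A : Finset ℕ // A ∈ powersetCard 3 (range M)}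
  -- the sets and the colours
  set P := (powersetCard n (range M)) ×ˢ (univ : Finset Bool) with hP
  let Y : Finset ℕ → Finset X := fun L => univ.filter (fun A => A.1 ⊆ L)
  have hY : ∀ L ∈ powersetCard n (range M), (Y L).card = n.choose 3 := by
    intro L hL
    rw [mem_powersetCard] at hL
    have : (Y L).card = (powersetCard 3 L).card := by
      refine card_bij (fun A _ => A.1) ?_ ?_ ?_
      · intro A hA
        have h1 := (mem_filter.1 hA).2
        exact mem_powersetCard.2 ⟨h1, (mem_powersetCard.1 A.2).2⟩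
      · intro A _ B _ hAB
        exact Subtype.ext hAB
      · intro B hB
        rw [mem_powersetCard] at hB
        exact ⟨⟨B, mem_powersetCard.2 ⟨hB.1.trans hL.1, hB.2⟩⟩, mem_filter.2 ⟨mem_univ _, hB.1⟩, rfl⟩
    rw [this, card_powersetCard, hL.2]
  have hcov : (univ : Finset (X → Bool)) ⊆ P.biUnion (fun p =>
      univ.filter (fun χ : X → Bool => ∀ y ∈ Y p.1, χ y = p.2)) := by
    intro χ _
    obtain ⟨L, hL, hLc, hh⟩ := hcon (fun A => if h : A ∈ powersetCard 3 (range M) then χ ⟨A, h⟩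
      else true)
    rw [mem_biUnion]
    by_cases hex : ∃ A0, A0 ⊆ L ∧ A0.card = 3
    · obtain ⟨A0, hA0, hA0c⟩ := hex
      have hA0m : A0 ∈ powersetCard 3 (range M) := mem_powersetCard.2 ⟨hA0.trans hL, hA0c⟩
      refine ⟨(L, χ ⟨A0, hA0m⟩), mem_product.2 ⟨mem_powersetCard.2 ⟨hL, hLc⟩, mem_univ _⟩, ?_⟩
      rw [mem_filter]
      refine ⟨mem_univ _, fun y hy => ?_⟩
      have h1 := hh y.1 (mem_filter.1 hy).2 A0 hA0 (mem_powersetCard.1 y.2).2 hA0c
      simp only at h1
      rw [dif_pos y.2, dif_pos hA0m] at h1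
      exact h1
    · refine ⟨(L, true), mem_product.2 ⟨mem_powersetCard.2 ⟨hL, hLc⟩, mem_univ _⟩, ?_⟩
      rw [mem_filter]
      refine ⟨mem_univ _, fun y hy => ?_⟩
      exact absurd ⟨y.1, (mem_filter.1 hy).2, (mem_powersetCard.1 y.2).2⟩ hex
  have h1 := card_le_card hcov
  have h2 := h1.trans card_biUnion_le
  rw [card_univ, Fintype.card_fun, Fintype.card_bool] at h2
  have h3 : ∀ p ∈ P, (univ.filter (fun χ : X → Bool => ∀ y ∈ Y p.1, χ y = p.2)).card *
      2 ^ n.choose 3 = 2 ^ Fintype.card X := by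
    intro p hp
    rw [← hY p.1 (mem_product.1 hp).1]
    exact card_const _ _
  have h4 : 2 ^ Fintype.card X * 2 ^ n.choose 3 ≤ P.card * 2 ^ Fintype.card X := by
    calc 2 ^ Fintype.card X * 2 ^ n.choose 3
        ≤ (∑ p ∈ P, (univ.filter (fun χ : X → Bool => ∀ y ∈ Y p.1, χ y = p.2)).card) *
            2 ^ n.choose 3 := Nat.mul_le_mul_right _ h2
      _ = ∑ p ∈ P, 2 ^ Fintype.card X := by
          rw [sum_mul]
          exact sum_congr rfl h3
      _ = P.card * 2 ^ Fintype.card X := by rw [sum_const, smul_eq_mul]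
  have h5 : 2 ^ n.choose 3 ≤ P.card := by
    have hpos : 0 < 2 ^ Fintype.card X := by positivity
    rw [mul_comm] at h4
    exact Nat.le_of_mul_le_mul_right h4 hpos
  have h6 : P.card ≤ M ^ n * 2 := by
    rw [hP, card_product, card_powersetCard, card_range, card_univ, Fintype.card_bool]
    exact Nat.mul_le_mul_right _ (Nat.choose_le_pow _ _)
  omega

theorem exists_triples' (q : ℕ) (hq : 1 ≤ q) :
    ∃ φ : Finset ℕ → Bool, ∀ L ⊆ range (2 ^ q ^ 2), L.card = 3 * q + 3 → ¬ Homogeneous 3 φ L := by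
  apply exists_triples
  rw [← pow_mul, ← pow_succ']
  apply Nat.pow_lt_pow_right (by norm_num)
  have h : (3 * q + 3).choose 3 * 6 = (3 * q + 3) * (3 * q + 2) * (3 * q + 1) := by
    have := Nat.descFactorial_eq_factorial_mul_choose (3 * q + 3) 3
    have e3 : (3 * q + 3).descFactorial 3 = (3 * q + 1) * ((3 * q + 2) * (3 * q + 3)) := by
      simp only [Nat.descFactorial]
      have e1 : 3 * q + 3 - 1 = 3 * q + 2 := by omega
      have e2 : 3 * q + 3 - 2 = 3 * q + 1 := by omega
      rw [e1, e2, Nat.sub_zero]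
      ring
    rw [e3] at this
    have e4 : Nat.factorial 3 = 6 := rfl
    rw [e4] at this
    linarith
  nlinarith [h, Nat.zero_le q, pow_two q]

/-- The two-colourings. -/
noncomputable def G (φ : Finset ℕ → Bool) : (t : ℕ) → (Fin (t + 3) → ℕ) → Bool
  | 0 => fun u => φ (univ.image u)
  | t + 1 => up (G φ t) true false

theorem G_odd (φ : Finset ℕ → Bool) (t : ℕ) : OddInv (G φ (t + 1)) := up_odd _ _ _

theorem G_aff (φ : Finset ℕ → Bool) (t : ℕ) : AffInv (G φ (t + 2)) :=
  up_aff (G_odd φ t).shift _ _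

/-- The number of vertices. -/
def Ng (q : ℕ) : ℕ → ℕ
  | 0 => 2 ^ q ^ 2
  | t + 1 => 2 ^ Ng q t

/-- The size of the homogeneous sets. -/
def sg (q : ℕ) : ℕ → ℕ
  | 0 => 3 * q + 3
  | t + 1 => 4 * sg q t + 1 + t

theorem sg_le (q : ℕ) : ∀ t, sg q t + t + 1 ≤ 4 ^ t * (3 * q + 4)
  | 0 => by simp [sg]
  | t + 1 => by
    have h := sg_le q t
    have e : 4 ^ (t + 1) * (3 * q + 4) = 4 * (4 ^ t * (3 * q + 4)) := by rw [pow_succ]; ring
    rw [sg, e]
    omega

theorem G_no (q : ℕ) (hq : 1 ≤ q) : ∃ φ : Finset ℕ → Bool, ∀ t, ∀ S ⊆ range (Ng q t),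
    S.card = sg q t → ¬ Hom (t + 3) (G φ t) S := by
  obtain ⟨φ, hφ⟩ := exists_triples' q hq
  refine ⟨φ, ?_⟩
  intro t
  induction t with
  | zero =>
    intro S hS hc hh
    exact hφ S hS hc (homogeneous_of_hom hh)
  | succ t ih =>
    intro S hS hc hh
    obtain ⟨L, hL, hLc, hh'⟩ := step (by decide) hS hc hh
    exact ih L hL hLc hh'

end Pool.Agent.Q293.TI
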