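import Pool.Agent.Q293.TI.Val

/-!
# Sets of integers without certain patterns contain long monotone chains
-/

set_option autoImplicit false

namespace Pool.Agent.Q293.TI

open Finset

/-- All triples have `d b c ≤ d a b`. -/
def GeT (T : Finset ℕ) : Prop :=
  ∀ a ∈ T, ∀ b ∈ T, ∀ c ∈ T, a < b → b < c → d b c ≤ d a b

/-- All triples have `d b c < d a b`. -/
def GtT (T : Finset ℕ) : Prop :=
  ∀ a ∈ T, ∀ b ∈ T, ∀ c ∈ T, a < b → b < c → d b c < d a b

theorem chain_ge (T : Finset ℕ) (h : GeT T) : ∃ T' ⊆ T, T.card ≤ 2 * T'.card ∧ GtT T' := by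
  obtain ⟨T', hT', hc, hlt⟩ := chain_le (α := ℕᵒᵈ)
    (e := fun x y => d (OrderDual.ofDual y) (OrderDual.ofDual x))
    (fun x y z h1 h2 => (tri (x := OrderDual.ofDual z) (y := OrderDual.ofDual y)
      (z := OrderDual.ofDual x) h2 h1).symm) T.card (T.map OrderDual.toDual.toEmbedding)
    (card_map _) (by
      intro a ha b hb c hc hab hbc
      rw [mem_map_equiv] at ha hb hc
      exact h _ hc _ hb _ ha hbc hab)
  refine ⟨T'.map OrderDual.ofDual.toEmbedding, ?_, ?_, ?_⟩
  · intro x hx
    rw [mem_map_equiv] at hx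
    have := hT' hx
    rw [mem_map_equiv] at this
    exact this
  · rw [card_map]
    exact hc
  · intro a ha b hb c hc hab hbc
    rw [mem_map_equiv] at ha hb hc
    exact hlt _ hc _ hb _ ha hbc hab

theorem split_one (T : Finset ℕ)
    (h : ∀ a ∈ T, ∀ b ∈ T, ∀ c ∈ T, ∀ f ∈ T, a < b → b < c → c < f →
      ¬ (d a b < d b c ∧ d c f < d b c)) :
    ∃ A ⊆ T, T.card ≤ 2 * A.card ∧ (LeT d A ∨ GeT A) := by
  rcases Nat.lt_or_ge T.card 2 with h2 | h2
  · refine ⟨T, Subset.refl _, by omega, Or.inl ?_⟩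
    intro a ha b hb c hc hab hbc
    have : ({a, b} : Finset ℕ).card ≤ T.card := card_le_card (by
      intro w hw
      rw [mem_insert, mem_singleton] at hw
      rcases hw with rfl | rfl <;> assumption)
    rw [card_pair hab.ne] at this
    omega
  · -- pairs
    set P := (T ×ˢ T).filter (fun p => p.1 < p.2) with hP
    have hPne : P.Nonempty := by
      obtain ⟨x, hx, y, hy, hxy⟩ := one_lt_card.1 (show 1 < T.card by omega)
      rcases lt_or_gt_of_ne hxy with h' | h'
      · exact ⟨(x, y), by rw [hP, mem_filter, mem_product]; exact ⟨⟨hx, hy⟩, h'⟩⟩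
      · exact ⟨(y, x), by rw [hP, mem_filter, mem_product]; exact ⟨⟨hy, hx⟩, h'⟩⟩
    obtain ⟨p0, hp0, hmin0⟩ := exists_min_image P (fun p => d p.1 p.2) hPne
    set k := d p0.1 p0.2 with hk
    set P' := P.filter (fun p => d p.1 p.2 = k) with hP'
    have hP'ne : P'.Nonempty := ⟨p0, by rw [hP', mem_filter]; exact ⟨hp0, rfl⟩⟩
    obtain ⟨⟨p, q⟩, hpq, hmin⟩ := exists_min_image P' (fun p => p.2 - p.1) hP'ne
    have hmem : ∀ x y, (x, y) ∈ P ↔ (x ∈ T ∧ y ∈ T) ∧ x < y := by
      intro x y
      rw [hP, mem_filter, mem_product]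
    have hk_le : ∀ x ∈ T, ∀ y ∈ T, x < y → k ≤ d x y := fun x hx y hy hxy =>
      hmin0 (x, y) ((hmem x y).2 ⟨⟨hx, hy⟩, hxy⟩)
    rw [hP', mem_filter, hmem] at hpq
    obtain ⟨⟨⟨hp, hq⟩, hpq'⟩, hdpq⟩ := hpq
    simp only at hdpq
    -- consecutive
    have hcons : ∀ w ∈ T, p < w → q ≤ w := by
      intro w hw hpw
      by_contra hwq
      push Not at hwq
      have t := tri hpw hwq
      have l1 := hk_le p hp w hw hpw
      have l2 := hk_le w hw q hq hwq
      have : d p w = k ∨ d w q = k := by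
        unfold Tri at t
        omega
      rcases this with h3 | h3
      · have := hmin (p, w) (by rw [hP', mem_filter, hmem]; exact ⟨⟨⟨hp, hw⟩, hpw⟩, h3⟩)
        simp only at this
        omega
      · have := hmin (w, q) (by rw [hP', mem_filter, hmem]; exact ⟨⟨⟨hw, hq⟩, hwq⟩, h3⟩)
        simp only at this
        omega
    have hA : GeT (T.filter (fun x => x ≤ p)) := by
      intro a ha b hb c hc hab hbc
      rw [mem_filter] at ha hb hc
      by_contra hlt
      push Not at hlt
      have l1 := hk_le a ha.1 b hb.1 hab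
      have hcq : c < q := lt_of_le_of_lt hc.2 hpq'
      have l2 := hk_le c hc.1 q hq hcq
      by_cases h3 : d c q = k
      · exact h a ha.1 b hb.1 c hc.1 q hq hab hbc hcq ⟨hlt, by omega⟩
      · have hcp : c < p := by
          refine lt_of_le_of_ne hc.2 ?_
          rintro rfl
          exact h3 hdpq
        have t := tri hcp hpq'
        refine h a ha.1 b hb.1 c hc.1 p hp hab hbc hcp ⟨hlt, ?_⟩
        unfold Tri at t
        omega
    have hB : LeT d (T.filter (fun x => q ≤ x)) := by
      intro b hb c hc f hf hbc hcf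
      rw [mem_filter] at hb hc hf
      by_contra hlt
      push Not at hlt
      have l1 := hk_le c hc.1 f hf.1 hcf
      have hpb : p < b := lt_of_lt_of_le hpq' hb.2
      by_cases h3 : d p b = k
      · exact h p hp b hb.1 c hc.1 f hf.1 hpb hbc hcf ⟨by omega, hlt⟩
      · have hqb : q < b := by
          refine lt_of_le_of_ne hb.2 ?_
          rintro rfl
          exact h3 hdpq
        have l2 := hk_le p hp b hb.1 hpb
        have l3 := hk_le q hq b hb.1 hqb
        have t := tri hpq' hqb
        refine h q hq b hb.1 c hc.1 f hf.1 hqb hbc hcf ⟨?_, hlt⟩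
        unfold Tri at t
        omega
    have hun : T ⊆ T.filter (fun x => x ≤ p) ∪ T.filter (fun x => q ≤ x) := by
      intro w hw
      rw [mem_union, mem_filter, mem_filter]
      rcases le_or_gt w p with h3 | h3
      · exact Or.inl ⟨hw, h3⟩
      · exact Or.inr ⟨hw, hcons w hw h3⟩
    have hcard := (card_le_card hun).trans (card_union_le _ _)
    rcases le_total (T.filter (fun x => x ≤ p)).card (T.filter (fun x => q ≤ x)).card with h3 | h3
    · exact ⟨_, filter_subset _ _, by omega, Or.inl hB⟩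
    · exact ⟨_, filter_subset _ _, by omega, Or.inr hA⟩

theorem split_two (T : Finset ℕ)
    (h : ∀ a ∈ T, ∀ b ∈ T, ∀ c ∈ T, ∀ f ∈ T, a < b → b < c → c < f →
      (d a b < d b c ∧ d b c < d c f) ∨ (d b c < d a b ∧ d c f < d b c) ∨
        (d a b < d b c ∧ d c f < d b c)) :
    ∃ A ⊆ T, T.card ≤ 2 * A.card ∧ (LtT d A ∨ GtT A) := by
  rcases Nat.lt_or_ge T.card 2 with h2 | h2
  · refine ⟨T, Subset.refl _, by omega, Or.inl ?_⟩
    intro a ha b hb c hc hab hbc
    have : ({a, b} : Finset ℕ).card ≤ T.card := card_le_card (by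
      intro w hw
      rw [mem_insert, mem_singleton] at hw
      rcases hw with rfl | rfl <;> assumption)
    rw [card_pair hab.ne] at this
    omega
  · have hne : T.Nonempty := card_pos.1 (by omega)
    set m := T.max' hne with hm
    have hmT : m ∈ T := max'_mem _ _
    set T0 := T.erase m with hT0
    have hc0 : T0.card = T.card - 1 := card_erase_of_mem hmT
    have hlt_m : ∀ x ∈ T0, x < m := fun x hx =>
      lt_of_le_of_ne (le_max' _ _ (erase_subset _ _ hx)) (ne_of_mem_erase hx)
    have hsub : T0 ⊆ T := erase_subset _ _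
    have F1 : ∀ a ∈ T0, ∀ b ∈ T0, ∀ c ∈ T0, a < b → b < c → d a b ≠ d b c := by
      intro a ha b hb c hc hab hbc
      have := h a (hsub ha) b (hsub hb) c (hsub hc) m hmT hab hbc (hlt_m c hc)
      omega
    have F2 : ∀ a ∈ T, ∀ b ∈ T, ∀ c ∈ T, ∀ f ∈ T, a < b → b < c → c < f →
        d b c < d a b → d c f < d b c := by
      intro a ha b hb c hc f hf hab hbc hcf h3
      have := h a ha b hb c hc f hf hab hbc hcf
      omega
    set C := T0.filter (fun c => ∃ a ∈ T0, ∃ b ∈ T0, a < b ∧ b < c ∧ d b c < d a b) with hC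
    by_cases hCne : C.Nonempty
    · set c0 := C.min' hCne with hc0'
      have hc0C : c0 ∈ C := min'_mem _ _
      have hc0C' := hc0C
      rw [hC, mem_filter] at hc0C'
      obtain ⟨hc0T, a, ha, b, hb, hab, hbc, hgt⟩ := hc0C'
      set A0 := T0.filter (fun x => x < c0) with hA0
      have hA0lt : LtT d A0 := by
        intro x hx y hy z hz hxy hyz
        rw [hA0, mem_filter] at hx hy hz
        have h3 := F1 x hx.1 y hy.1 z hz.1 hxy hyz
        by_contra h4
        have : z ∈ C := by
          rw [hC, mem_filter]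
          exact ⟨hz.1, x, hx.1, y, hy.1, hxy, hyz, by omega⟩
        have := min'_le _ _ this
        omega
      have hbA : b ∈ A0 := by rw [hA0, mem_filter]; exact ⟨hb, hbc⟩
      have hA0ne : A0.Nonempty := ⟨b, hbA⟩
      set b' := A0.max' hA0ne with hb'
      have hb'A : b' ∈ A0 := max'_mem _ _
      have hb'A' := hb'A
      rw [hA0, mem_filter] at hb'A'
      have hbb' : b ≤ b' := le_max' _ _ hbA
      obtain ⟨a', ha', hab', hgt'⟩ : ∃ a' ∈ T0, a' < b' ∧ d b' c0 < d a' b' := by
        rcases hbb'.lt_or_eq with h3 | h3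
        · refine ⟨b, hb, h3, ?_⟩
          have haA : a ∈ A0 := by rw [hA0, mem_filter]; exact ⟨ha, hab.trans hbc⟩
          have h4 := hA0lt a haA b hbA b' hb'A hab h3
          have t := tri h3 hb'A'.2
          unfold Tri at t
          omega
        · exact ⟨a, ha, h3 ▸ hab, h3 ▸ hgt⟩
      have hge : ∀ w ∈ T, b' < w → c0 ≤ w := by
        intro w hw hbw
        by_contra hwc
        push Not at hwc
        have hwT0 : w ∈ T0 := mem_erase.2 ⟨(hwc.trans (hlt_m c0 hc0T)).ne, hw⟩
        have : w ∈ A0 := by rw [hA0, mem_filter]; exact ⟨hwT0, hwc⟩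
        have := le_max' _ _ this
        omega
      have hb'T := hsub hb'A'.1
      have hc0TT := hsub hc0T
      have S1 : ∀ f ∈ T, c0 < f → d c0 f < d b' c0 := fun f hf hcf =>
        F2 a' (hsub ha') b' hb'T c0 hc0TT f hf hab' hb'A'.2 hcf hgt'
      have S2 : ∀ f ∈ T, ∀ g ∈ T, c0 < f → f < g → d f g < d c0 f := fun f hf g hg hcf hfg =>
        F2 b' hb'T c0 hc0TT f hf g hg hb'A'.2 hcf hfg (S1 f hf hcf)
      have hB : GtT (T.filter (fun x => b' ≤ x)) := by
        intro x hx y hy z hz hxy hyz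
        rw [mem_filter] at hx hy hz
        rcases hx.2.lt_or_eq with h3 | h3
        · rcases (hge x hx.1 h3).lt_or_eq with h4 | h4
          · exact F2 c0 hc0TT x hx.1 y hy.1 z hz.1 h4 hxy hyz (S2 x hx.1 y hy.1 h4 hxy)
          · rw [← h4]
            exact S2 y hy.1 z hz.1 (h4 ▸ hxy) hyz
        · rw [← h3]
          have h5 : b' < y := h3 ▸ hxy
          rcases (hge y hy.1 h5).lt_or_eq with h4 | h4
          · have t := tri hb'A'.2 h4
            have s1 := S1 y hy.1 h4
            have s2 := S2 y hy.1 z hz.1 h4 hyz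
            unfold Tri at t
            omega
          · rw [← h4]
            exact S1 z hz.1 (h4 ▸ hyz)
      have hun : T ⊆ A0 ∪ T.filter (fun x => b' ≤ x) := by
        intro w hw
        rw [mem_union]
        rcases le_or_gt b' w with h3 | h3
        · exact Or.inr (mem_filter.2 ⟨hw, h3⟩)
        · left
          have h4 := hb'A'.2
          have h5 := hlt_m c0 hc0T
          exact mem_filter.2 ⟨mem_erase.2 ⟨by omega, hw⟩, by omega⟩
      have hcard := (card_le_card hun).trans (card_union_le _ _)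
      rcases le_total A0.card (T.filter (fun x => b' ≤ x)).card with h3 | h3
      · exact ⟨_, filter_subset _ _, by omega, Or.inr hB⟩
      · exact ⟨A0, (filter_subset _ _).trans hsub, by omega, Or.inl hA0lt⟩
    · refine ⟨T0, hsub, by omega, Or.inl ?_⟩
      intro x hx y hy z hz hxy hyz
      have h3 := F1 x hx y hy z hz hxy hyz
      by_contra h4
      apply hCne
      exact ⟨z, by rw [hC, mem_filter]; exact ⟨hz, x, hx, y, hy, hxy, hyz, by omega⟩⟩

/-- Both kinds of patterns. -/
theorem chain_of (T : Finset ℕ)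
    (h : (∀ a ∈ T, ∀ b ∈ T, ∀ c ∈ T, ∀ f ∈ T, a < b → b < c → c < f →
        ¬ (d a b < d b c ∧ d c f < d b c)) ∨
      (∀ a ∈ T, ∀ b ∈ T, ∀ c ∈ T, ∀ f ∈ T, a < b → b < c → c < f →
        (d a b < d b c ∧ d b c < d c f) ∨ (d b c < d a b ∧ d c f < d b c) ∨
          (d a b < d b c ∧ d c f < d b c))) :
    ∃ A ⊆ T, T.card ≤ 4 * A.card ∧ (LtT d A ∨ GtT A) := by
  rcases h with h | h
  · obtain ⟨A, hA, hc, h1 | h1⟩ := split_one T h
    · obtain ⟨A', hA', hc', h2⟩ := chain_le (e := d) (fun x y z => tri) A.card A rfl h1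
      exact ⟨A', hA'.trans hA, by omega, Or.inl h2⟩
    · obtain ⟨A', hA', hc', h2⟩ := chain_ge A h1
      exact ⟨A', hA'.trans hA, by omega, Or.inr h2⟩
  · obtain ⟨A, hA, hc, h1⟩ := split_two T h
    exact ⟨A, hA, by omega, h1⟩

end Pool.Agent.Q293.TI
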