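import Pool.Agent.Q293.TI.Split

/-!
# Stepping up with the exponents of two in the differences
-/

set_option autoImplicit false

namespace Pool.Agent.Q293.TI

open Finset

variable {κ : Type}

/-- The exponents of two in the differences of neighbours. -/
def V {k : ℕ} (x : Fin (k + 1) → ℕ) : Fin k → ℕ := fun i => d (x i.castSucc) (x i.succ)

/-- All strictly increasing vectors with entries in `S` have the same colour. -/
def Hom (k : ℕ) (f : (Fin k → ℕ) → κ) (S : Finset ℕ) : Prop :=
  ∃ χ, ∀ x : Fin k → ℕ, StrictMono x → (∀ i, x i ∈ S) → f x = χ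

theorem realize_lt {A : Finset ℕ} {M n k : ℕ} (hA : LtT d A) (hM : A ⊆ range (2 ^ M))
    (hc : A.card = n + 1) :
    ∃ L ⊆ range M, L.card = n ∧ ∀ u : Fin k → ℕ, StrictMono u → (∀ i, u i ∈ L) →
      ∃ x : Fin (k + 1) → ℕ, StrictMono x ∧ (∀ i, x i ∈ A) ∧ V x = u := by
  have hne : A.Nonempty := card_pos.1 (by omega)
  set m := A.max' hne with hm
  have hmA : m ∈ A := max'_mem _ _
  have hltm : ∀ x ∈ A.erase m, x < m := fun x hx =>
    lt_of_le_of_ne (le_max' _ _ (erase_subset _ _ hx)) (ne_of_mem_erase hx)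
  have hd : ∀ x ∈ A, ∀ z ∈ A, x < z → d x z = d x m := by
    intro x hx z hz hxz
    rcases (le_max' A z hz).lt_or_eq with h | h
    · rw [← hm] at h
      have h1 := hA x hx z hz m hmA hxz h
      have t := tri hxz h
      unfold Tri at t
      omega
    · rw [← hm] at h
      rw [h]
  have hmono : ∀ x ∈ A.erase m, ∀ z ∈ A.erase m, x < z → d x m < d z m := by
    intro x hx z hz hxz
    have h1 := hA x (erase_subset _ _ hx) z (erase_subset _ _ hz) m hmA hxz (hltm z hz)
    rw [hd x (erase_subset _ _ hx) z (erase_subset _ _ hz) hxz] at h1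
    exact h1
  refine ⟨(A.erase m).image (fun x => d x m), ?_, ?_, ?_⟩
  · intro u hu
    obtain ⟨x, hx, rfl⟩ := mem_image.1 hu
    exact mem_range.2 (d_lt (hltm x hx) (mem_range.1 (hM hmA)))
  · rw [card_image_of_injOn, card_erase_of_mem hmA, hc]
    · rfl
    · intro x hx z hz hxz
      rcases lt_trichotomy x z with h | h | h
      · have := hmono x hx z hz h
        simp only at hxz
        omega
      · exact h
      · have := hmono z hz x hx h
        simp only at hxz
        omega
  · intro u hu huL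
    have hex : ∀ i, ∃ x ∈ A.erase m, d x m = u i := fun i => by
      obtain ⟨x, hx, h⟩ := mem_image.1 (huL i)
      exact ⟨x, hx, h⟩
    choose xs hxs hxu using hex
    have hxmono : StrictMono xs := by
      intro i j hij
      by_contra hlt
      push Not at hlt
      have h1 := hu hij
      rcases hlt.lt_or_eq with h | h
      · have := hmono _ (hxs j) _ (hxs i) h
        rw [hxu, hxu] at this
        omega
      · rw [← hxu i, ← hxu j, h] at h1
        omega
    have hmem : ∀ i, (Fin.snoc xs m : Fin (k + 1) → ℕ) i ∈ A := by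
      intro i
      refine Fin.lastCases ?_ (fun j => ?_) i
      · rw [Fin.snoc_last]; exact hmA
      · rw [Fin.snoc_castSucc]; exact erase_subset _ _ (hxs j)
    have hsm : StrictMono (Fin.snoc xs m : Fin (k + 1) → ℕ) := by
      intro i j hij
      revert hij
      refine Fin.lastCases ?_ (fun j' => ?_) j
      · intro hij
        obtain ⟨i', rfl⟩ : ∃ i' : Fin k, i = i'.castSucc :=
          ⟨i.castPred (ne_of_lt hij), (Fin.castSucc_castPred _ _).symm⟩
        rw [Fin.snoc_last, Fin.snoc_castSucc]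
        exact hltm _ (hxs i')
      · intro hij
        obtain ⟨i', rfl⟩ : ∃ i' : Fin k, i = i'.castSucc :=
          ⟨i.castPred (ne_of_lt (lt_of_lt_of_le hij (Fin.le_last _))),
            (Fin.castSucc_castPred _ _).symm⟩
        rw [Fin.snoc_castSucc, Fin.snoc_castSucc]
        exact hxmono (Fin.castSucc_lt_castSucc_iff.1 hij)
    refine ⟨Fin.snoc xs m, hsm, hmem, ?_⟩
    funext i
    show d _ _ = u i
    rw [hd _ (hmem _) _ (hmem _) (hsm Fin.castSucc_lt_succ), Fin.snoc_castSucc, hxu]

theorem realize_gt {A : Finset ℕ} {M n k : ℕ} (hA : GtT A) (hM : A ⊆ range (2 ^ M))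
    (hc : A.card = n + 1) :
    ∃ L ⊆ range M, L.card = n ∧ ∀ u : Fin k → ℕ, StrictMono u → (∀ i, u i ∈ L) →
      ∃ x : Fin (k + 1) → ℕ, StrictMono x ∧ (∀ i, x i ∈ A) ∧ V x = u ∘ Fin.rev := by
  have hne : A.Nonempty := card_pos.1 (by omega)
  set m := A.min' hne with hm
  have hmA : m ∈ A := min'_mem _ _
  have hltm : ∀ x ∈ A.erase m, m < x := fun x hx =>
    lt_of_le_of_ne (min'_le _ _ (erase_subset _ _ hx)) (ne_of_mem_erase hx).symm
  have hd : ∀ x ∈ A, ∀ z ∈ A, x < z → d x z = d m z := by
    intro x hx z hz hxz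
    rcases (min'_le A x hx).lt_or_eq with h | h
    · rw [← hm] at h
      have h1 := hA m hmA x hx z hz h hxz
      have t := tri h hxz
      unfold Tri at t
      omega
    · rw [← hm] at h
      rw [h]
  have hmono : ∀ x ∈ A.erase m, ∀ z ∈ A.erase m, x < z → d m z < d m x := by
    intro x hx z hz hxz
    have h1 := hA m hmA x (erase_subset _ _ hx) z (erase_subset _ _ hz) (hltm x hx) hxz
    rw [hd x (erase_subset _ _ hx) z (erase_subset _ _ hz) hxz] at h1
    exact h1
  refine ⟨(A.erase m).image (fun x => d m x), ?_, ?_, ?_⟩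
  · intro u hu
    obtain ⟨x, hx, rfl⟩ := mem_image.1 hu
    exact mem_range.2 (d_lt (hltm x hx) (mem_range.1 (hM (erase_subset _ _ hx))))
  · rw [card_image_of_injOn, card_erase_of_mem hmA, hc]
    · rfl
    · intro x hx z hz hxz
      rcases lt_trichotomy x z with h | h | h
      · have := hmono x hx z hz h
        simp only at hxz
        omega
      · exact h
      · have := hmono z hz x hx h
        simp only at hxz
        omega
  · intro u hu huL
    have hex : ∀ i, ∃ x ∈ A.erase m, d m x = u i := fun i => by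
      obtain ⟨x, hx, h⟩ := mem_image.1 (huL i)
      exact ⟨x, hx, h⟩
    choose xs hxs hxu using hex
    have hxanti : ∀ i j, i < j → xs j < xs i := by
      intro i j hij
      by_contra hlt
      push Not at hlt
      have h1 := hu hij
      rcases hlt.lt_or_eq with h | h
      · have := hmono _ (hxs i) _ (hxs j) h
        rw [hxu, hxu] at this
        omega
      · rw [← hxu i, ← hxu j, h] at h1
        omega
    set w : Fin (k + 1) → ℕ := Fin.cons m (fun i => xs (Fin.rev i)) with hw
    have hw0 : w 0 = m := rfl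
    have hws : ∀ i : Fin k, w i.succ = xs (Fin.rev i) := fun i => rfl
    have hmem : ∀ i, w i ∈ A := by
      intro i
      refine Fin.cases ?_ (fun j => ?_) i
      · rw [hw0]; exact hmA
      · rw [hws]; exact erase_subset _ _ (hxs _)
    have hsm : StrictMono w := by
      intro i j hij
      revert hij
      refine Fin.cases ?_ (fun i' => ?_) i
      · intro hij
        obtain ⟨j', rfl⟩ : ∃ j' : Fin k, j = j'.succ := ⟨j.pred (ne_of_gt hij), (Fin.succ_pred _ _).symm⟩
        rw [hw0, hws]
        exact hltm _ (hxs _)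
      · intro hij
        obtain ⟨j', rfl⟩ : ∃ j' : Fin k, j = j'.succ :=
          ⟨j.pred (ne_of_gt (lt_of_le_of_lt (Fin.zero_le _) hij)), (Fin.succ_pred _ _).symm⟩
        rw [hws, hws]
        exact hxanti _ _ (Fin.rev_lt_rev.2 (Fin.succ_lt_succ_iff.1 hij))
    refine ⟨w, hsm, hmem, ?_⟩
    funext i
    show d _ _ = u (Fin.rev i)
    rw [hd _ (hmem _) _ (hmem _) (hsm Fin.castSucc_lt_succ), hws, hxu]

/-- Stepping up from `t + 3` to `t + 4`. -/
noncomputable def up {t : ℕ} (f : (Fin (t + 3) → ℕ) → κ) (a b : κ) (x : Fin (t + 4) → ℕ) : κ := by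
  classical
  exact if StrictMono (V x) then f (V x)
    else if StrictAnti (V x) then f (V x ∘ Fin.rev)
    else if V x 0 < V x 1 ∧ V x 2 < V x 1 then b else a

theorem lt_mono {A B : Finset ℕ} (h : B ⊆ A) (hA : LtT d A) : LtT d B :=
  fun a ha b hb c hc => hA a (h ha) b (h hb) c (h hc)

theorem gt_mono {A B : Finset ℕ} (h : B ⊆ A) (hA : GtT A) : GtT B :=
  fun a ha b hb c hc => hA a (h ha) b (h hb) c (h hc)

/-- From a chain to a homogeneous set. -/
theorem of_chain {t M n : ℕ} {f : (Fin (t + 3) → ℕ) → κ} {a b : κ} {A : Finset ℕ}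
    (hM : A ⊆ range (2 ^ M)) (hc : n + 1 ≤ A.card) (h : LtT d A ∨ GtT A)
    (hh : Hom (t + 4) (up f a b) A) :
    ∃ L ⊆ range M, L.card = n ∧ Hom (t + 3) f L := by
  obtain ⟨A', hA', hc'⟩ := exists_subset_card_eq hc
  obtain ⟨χ, hχ⟩ := hh
  rcases h with h | h
  · obtain ⟨L, hL, hLc, hr⟩ := realize_lt (k := t + 3) (lt_mono hA' h) (hA'.trans hM) hc'
    refine ⟨L, hL, hLc, χ, ?_⟩
    intro u hu huL
    obtain ⟨x, hx, hxA, hV⟩ := hr u hu huL
    have := hχ x hx (fun i => hA' (hxA i))
    unfold up at this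
    rw [hV, if_pos hu] at this
    exact this
  · obtain ⟨L, hL, hLc, hr⟩ := realize_gt (k := t + 3) (gt_mono hA' h) (hA'.trans hM) hc'
    refine ⟨L, hL, hLc, χ, ?_⟩
    intro u hu huL
    obtain ⟨x, hx, hxA, hV⟩ := hr u hu huL
    have h1 := hχ x hx (fun i => hA' (hxA i))
    have hanti : StrictAnti (u ∘ Fin.rev) := fun i j hij => hu (Fin.rev_lt_rev.2 hij)
    have hnm : ¬ StrictMono (u ∘ Fin.rev) := by
      intro hm
      have e1 := hm (show (0 : Fin (t + 3)) < 1 from Fin.mk_lt_mk.2 (by simp))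
      have e2 := hanti (show (0 : Fin (t + 3)) < 1 from Fin.mk_lt_mk.2 (by simp))
      omega
    unfold up at h1
    rw [hV, if_neg hnm, if_pos hanti] at h1
    have e : (u ∘ Fin.rev) ∘ Fin.rev = u := by
      funext i
      simp
    rw [e] at h1
    exact h1

/-- **Stepping up.** -/
theorem step {t M n : ℕ} {f : (Fin (t + 3) → ℕ) → κ} {a b : κ} (hab : a ≠ b) {S : Finset ℕ}
    (hS : S ⊆ range (2 ^ M)) (hc : S.card = 4 * n + 1 + t) (hh : Hom (t + 4) (up f a b) S) :
    ∃ L ⊆ range M, L.card = n ∧ Hom (t + 3) f L := by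
  obtain ⟨χ, hχ⟩ := hh
  let ψ := S.orderEmbOfFin hc
  have hψS : ∀ i, ψ i ∈ S := fun i => orderEmbOfFin_mem S hc i
  have hψ : ∀ i j, i < j → ψ i < ψ j := fun i j h => ψ.strictMono h
  set T : Finset ℕ := (univ : Finset (Fin (4 * n + 1))).image
    (fun i : Fin (4 * n + 1) => ψ ⟨(i : ℕ), by omega⟩) with hT
  have hTS : T ⊆ S := by
    intro x hx
    obtain ⟨i, _, rfl⟩ := mem_image.1 hx
    exact hψS _
  have hTc : T.card = 4 * n + 1 := by
    rw [hT, card_image_of_injective, card_univ, Fintype.card_fin]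
    intro i j hij
    have := ψ.injective hij
    exact Fin.ext (by simpa using this)
  let w : ℕ → ℕ := fun j => if h : 4 * n + 1 + j < 4 * n + 1 + t then ψ ⟨4 * n + 1 + j, h⟩ else 0
  have hwS : ∀ j, j < t → w j ∈ S := by
    intro j hj
    simp only [w]
    rw [dif_pos (by omega)]
    exact hψS _
  have hw : ∀ i j, i < j → j < t → w i < w j := by
    intro i j hij hj
    simp only [w]
    rw [dif_pos (by omega), dif_pos (by omega)]
    exact hψ _ _ (Fin.mk_lt_mk.2 (by omega))
  have hTw : ∀ x ∈ T, ∀ j, j < t → x < w j := by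
    intro x hx j hj
    obtain ⟨i, _, rfl⟩ := mem_image.1 hx
    simp only [w]
    rw [dif_pos (by omega)]
    exact hψ _ _ (Fin.mk_lt_mk.2 (by omega))
  have key : ∀ p ∈ T, ∀ q ∈ T, ∀ r ∈ T, ∀ s ∈ T, p < q → q < r → r < s →
      ∃ x : Fin (t + 4) → ℕ, up f a b x = χ ∧ V x 0 = d p q ∧ V x 1 = d q r ∧ V x 2 = d r s := by
    intro p hp q hq r hr s hs hpq hqr hrs
    let x : Fin (t + 4) → ℕ := fun i => if (i : ℕ) = 0 then p else if (i : ℕ) = 1 then q else
      if (i : ℕ) = 2 then r else if (i : ℕ) = 3 then s else w (i - 4)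
    have hxS : ∀ i, x i ∈ S := by
      intro i
      simp only [x]
      split_ifs with h0 h1 h2 h3
      · exact hTS hp
      · exact hTS hq
      · exact hTS hr
      · exact hTS hs
      · exact hwS _ (by omega)
    have hx : StrictMono x := by
      refine Fin.strictMono_iff_lt_succ.2 (fun i => ?_)
      simp only [x, Fin.val_castSucc, Fin.val_succ]
      rcases Nat.lt_or_ge (i : ℕ) 4 with h4 | h4
      · have hi : (i : ℕ) = 0 ∨ (i : ℕ) = 1 ∨ (i : ℕ) = 2 ∨ (i : ℕ) = 3 := by omega
        rcases hi with h | h | h | h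
        · simp [h, hpq]
        · simp [h, hqr]
        · simp [h, hrs]
        · have hi := i.2
          simp only [h]
          norm_num
          exact hTw s hs 0 (by omega)
      · have hi := i.2
        rw [if_neg (by omega), if_neg (by omega), if_neg (by omega), if_neg (by omega),
          if_neg (by omega), if_neg (by omega), if_neg (by omega), if_neg (by omega)]
        exact hw _ _ (by omega) (by omega)
    refine ⟨x, hχ x hx hxS, ?_, ?_, ?_⟩
    · rfl
    · rfl
    · rfl
  have hchain : ∃ A ⊆ T, T.card ≤ 4 * A.card ∧ (LtT d A ∨ GtT A) := by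
    apply chain_of
    by_cases hb : χ = b
    · right
      intro p hp q hq r hr s hs hpq hqr hrs
      obtain ⟨x, hx, h0, h1, h2⟩ := key p hp q hq r hr s hs hpq hqr hrs
      unfold up at hx
      have l01 : (0 : Fin (t + 3)) < 1 := Fin.mk_lt_mk.2 (by simp)
      have l12 : (1 : Fin (t + 3)) < 2 := by
        rw [Fin.lt_def]
        show 1 % (t + 3) < 2 % (t + 3)
        rw [Nat.mod_eq_of_lt, Nat.mod_eq_of_lt] <;> omega
      rw [← h0, ← h1, ← h2]
      split_ifs at hx with c1 c2 c3
      · exact Or.inl ⟨c1 l01, c1 l12⟩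
      · exact Or.inr (Or.inl ⟨c2 l01, c2 l12⟩)
      · exact Or.inr (Or.inr c3)
      · exact absurd (hx.trans hb) hab
    · left
      intro p hp q hq r hr s hs hpq hqr hrs hcon
      obtain ⟨x, hx, h0, h1, h2⟩ := key p hp q hq r hr s hs hpq hqr hrs
      unfold up at hx
      have l01 : (0 : Fin (t + 3)) < 1 := Fin.mk_lt_mk.2 (by simp)
      have l12 : (1 : Fin (t + 3)) < 2 := by
        rw [Fin.lt_def]
        show 1 % (t + 3) < 2 % (t + 3)
        rw [Nat.mod_eq_of_lt, Nat.mod_eq_of_lt] <;> omega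
      rw [← h0, ← h1, ← h2] at hcon
      rw [if_neg (fun hm => absurd (hm l12) (by omega)), if_neg (fun hm => absurd (hm l01) (by omega)),
        if_pos hcon] at hx
      exact hb hx.symm
  obtain ⟨A, hA, hcA, h⟩ := hchain
  exact of_chain (hA.trans (hTS.trans hS)) (by omega) h
    ⟨χ, fun x hx hxA => hχ x hx (fun i => hTS (hA (hxA i)))⟩

end Pool.Agent.Q293.TI
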