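import Pool.Agent.Q293.TI.Step
import Pool.Agent.TH138.NF.HD

/-!
# Symmetries, triples, towers
-/

set_option autoImplicit false

namespace Pool.Agent.Q293.TI

open Finset

variable {κ : Type}

theorem d_affine {a : ℕ} (ha : a ≠ 0) (b : ℕ) {x y : ℕ} (h : x < y) :
    d (a * x + b) (a * y + b) = d x y + padicValNat 2 a := by
  unfold d
  have e : a * y + b - (a * x + b) = a * (y - x) := by
    rw [Nat.add_sub_add_right, ← Nat.mul_sub]
  rw [e, padicValNat.mul ha (by omega), add_comm]

theorem V_affine {k : ℕ} {a : ℕ} (ha : a ≠ 0) (b : ℕ) {v : Fin (k + 1) → ℕ} (hv : StrictMono v) :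
    V (fun i => a * v i + b) = fun i => V v i + padicValNat 2 a := by
  funext i
  exact d_affine ha b (hv Fin.castSucc_lt_succ)

/-- Invariance under shifts. -/
def ShiftInv {k : ℕ} (f : (Fin k → ℕ) → κ) : Prop :=
  ∀ (s : ℕ) (u : Fin k → ℕ), StrictMono u → f (fun i => u i + s) = f u

/-- Invariance under affine maps with odd slope. -/
def OddInv {k : ℕ} (f : (Fin k → ℕ) → κ) : Prop :=
  ∀ (a b : ℕ), Odd a → ∀ u : Fin k → ℕ, StrictMono u → f (fun i => a * u i + b) = f u

/-- Invariance under all affine maps. -/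
def AffInv {k : ℕ} (f : (Fin k → ℕ) → κ) : Prop :=
  ∀ (a b : ℕ), a ≠ 0 → ∀ u : Fin k → ℕ, StrictMono u → f (fun i => a * u i + b) = f u

theorem OddInv.shift {k : ℕ} {f : (Fin k → ℕ) → κ} (h : OddInv f) : ShiftInv f := by
  intro s u hu
  have := h 1 s odd_one u hu
  simpa using this

theorem padic_odd {a : ℕ} (ha : Odd a) : padicValNat 2 a = 0 :=
  padicValNat.eq_zero_of_not_dvd (fun h => (Nat.not_even_iff_odd.2 ha) (even_iff_two_dvd.2 h))

theorem V_odd {k : ℕ} {a : ℕ} (ha : Odd a) (b : ℕ) {v : Fin (k + 1) → ℕ} (hv : StrictMono v) :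
    V (fun i => a * v i + b) = V v := by
  rw [V_affine (by rintro rfl; exact absurd ha (by decide)) b hv]
  funext i
  show V v i + padicValNat 2 a = V v i
  rw [padic_odd ha, add_zero]

theorem up_congr {t : ℕ} (f : (Fin (t + 3) → ℕ) → κ) (a b : κ) {x y : Fin (t + 4) → ℕ}
    (h : V x = V y) : up f a b x = up f a b y := by
  unfold up
  rw [h]

theorem up_odd {t : ℕ} (f : (Fin (t + 3) → ℕ) → κ) (a b : κ) : OddInv (up f a b) :=
  fun a' b' ha' u hu => up_congr f a b (V_odd ha' b' hu)

theorem up_aff {t : ℕ} {f : (Fin (t + 3) → ℕ) → κ} (hf : ShiftInv f) (a b : κ) :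
    AffInv (up f a b) := by
  intro a' b' ha' u hu
  have hV := V_affine ha' b' hu
  set s := padicValNat 2 a' with hs
  have e1 : StrictMono (fun i => V u i + s) ↔ StrictMono (V u) := by
    constructor
    · intro h i j hij
      have := h hij
      simpa using this
    · intro h i j hij
      have := h hij
      simpa using this
  have e2 : StrictAnti (fun i => V u i + s) ↔ StrictAnti (V u) := by
    constructor
    · intro h i j hij
      have := h hij
      simpa using this
    · intro h i j hij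
      have := h hij
      simpa using this
  unfold up
  rw [hV]
  by_cases h1 : StrictMono (V u)
  · rw [if_pos (e1.2 h1), if_pos h1]
    exact hf s _ h1
  · rw [if_neg (fun h => h1 (e1.1 h)), if_neg h1]
    by_cases h2 : StrictAnti (V u)
    · rw [if_pos (e2.2 h2), if_pos h2]
      exact hf s (V u ∘ Fin.rev) (fun i j hij => h2 (Fin.rev_lt_rev.2 hij))
    · rw [if_neg (fun h => h2 (e2.1 h)), if_neg h2]
      simp only [add_lt_add_iff_right]

/-- Pairs to triples. -/
def up2 (χ : ℕ → ℕ → Bool) (x : Fin 3 → ℕ) : Bool × Bool :=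
  if V x 1 < V x 0 then (false, χ (V x 1) (V x 0)) else (true, χ (V x 0) (V x 1))

theorem up2_odd (χ : ℕ → ℕ → Bool) : OddInv (up2 χ) := by
  intro a b ha u hu
  unfold up2
  rw [V_odd ha b hu]

theorem base {χ : ℕ → ℕ → Bool} {M n : ℕ} {S : Finset ℕ} (hS : S ⊆ range (2 ^ M))
    (hc : S.card = 2 * n + 1) (hh : Hom 3 (up2 χ) S) :
    ∃ L ⊆ range M, L.card = n ∧ ∃ c, ∀ a ∈ L, ∀ b ∈ L, a < b → χ a b = c := by
  obtain ⟨⟨c1, c2⟩, hχ⟩ := hh
  have h3 : ∀ a ∈ S, ∀ b ∈ S, ∀ c ∈ S, a < b → b < c → up2 χ ![a, b, c] = (c1, c2) := by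
    intro a ha b hb c hc hab hbc
    refine hχ _ ?_ ?_
    · rw [Fin.strictMono_iff_lt_succ]
      intro i
      fin_cases i
      · exact hab
      · exact hbc
    · intro i
      fin_cases i
      · exact ha
      · exact hb
      · exact hc
  cases c1 with
  | true =>
    have hle : LeT d S := by
      intro a ha b hb c hc hab hbc
      have := h3 a ha b hb c hc hab hbc
      unfold up2 at this
      by_contra hlt
      rw [if_pos (by exact not_le.1 hlt)] at this
      exact Bool.false_ne_true (congrArg Prod.fst this)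
    obtain ⟨A, hA, hAc, hlt⟩ := chain_le (e := d) (fun x y z => tri) S.card S rfl hle
    obtain ⟨A', hA', hcA'⟩ := exists_subset_card_eq (s := A) (n := n + 1) (by omega)
    obtain ⟨L, hL, hLc, hr⟩ := realize_lt (k := 2) (lt_mono hA' hlt)
      ((hA'.trans hA).trans hS) hcA'
    refine ⟨L, hL, hLc, c2, ?_⟩
    intro a ha b hb hab
    have hu : StrictMono ![a, b] := by
      rw [Fin.strictMono_iff_lt_succ]
      intro i
      fin_cases i
      exact hab
    obtain ⟨x, hx, hxA, hV⟩ := hr ![a, b] hu (by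
      intro i
      fin_cases i
      · exact ha
      · exact hb)
    have h4 := hχ x hx (fun i => hA (hA' (hxA i)))
    unfold up2 at h4
    rw [hV, if_neg (by show ¬ b < a; omega)] at h4
    exact congrArg Prod.snd h4
  | false =>
    have hlt : GtT S := by
      intro a ha b hb c hc hab hbc
      have := h3 a ha b hb c hc hab hbc
      unfold up2 at this
      by_contra hlt
      rw [if_neg (by exact hlt)] at this
      exact Bool.false_ne_true (congrArg Prod.fst this).symm
    obtain ⟨A', hA', hcA'⟩ := exists_subset_card_eq (s := S) (n := n + 1) (by omega)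
    obtain ⟨L, hL, hLc, hr⟩ := realize_gt (k := 2) (gt_mono hA' hlt) (hA'.trans hS) hcA'
    refine ⟨L, hL, hLc, c2, ?_⟩
    intro a ha b hb hab
    have hu : StrictMono ![a, b] := by
      rw [Fin.strictMono_iff_lt_succ]
      intro i
      fin_cases i
      exact hab
    obtain ⟨x, hx, hxA, hV⟩ := hr ![a, b] hu (by
      intro i
      fin_cases i
      · exact ha
      · exact hb)
    have h4 := hχ x hx (fun i => hA' (hxA i))
    unfold up2 at h4
    have e0 : (![a, b] ∘ Fin.rev) 0 = b := rfl
    have e1 : (![a, b] ∘ Fin.rev) 1 = a := rfl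
    rw [hV, e0, e1, if_pos hab] at h4
    exact congrArg Prod.snd h4

/-- The four-colourings. -/
noncomputable def F (χ : ℕ → ℕ → Bool) : (t : ℕ) → (Fin (t + 3) → ℕ) → Bool × Bool
  | 0 => up2 χ
  | t + 1 => up (F χ t) (true, true) (false, false)

theorem F_odd (χ : ℕ → ℕ → Bool) : ∀ t, OddInv (F χ t)
  | 0 => up2_odd χ
  | _ + 1 => up_odd _ _ _

theorem F_aff (χ : ℕ → ℕ → Bool) (t : ℕ) : AffInv (F χ (t + 1)) := up_aff (F_odd χ t).shift _ _

/-- The number of vertices. -/
def Nn (j : ℕ) : ℕ → ℕ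
  | 0 => 2 ^ 2 ^ j
  | t + 1 => 2 ^ Nn j t

/-- The size of the homogeneous sets. -/
def sz (j : ℕ) : ℕ → ℕ
  | 0 => 2 * (4 * j + 4) + 1
  | t + 1 => 4 * sz j t + 1 + t

theorem sz_le (j : ℕ) : ∀ t, sz j t + t + 1 ≤ 4 ^ t * (8 * j + 10)
  | 0 => by simp [sz]; omega
  | t + 1 => by
    have h := sz_le j t
    have e : 4 ^ (t + 1) * (8 * j + 10) = 4 * (4 ^ t * (8 * j + 10)) := by rw [pow_succ]; ring
    rw [sz, e]
    omega

theorem F_no (j : ℕ) : ∃ χ : ℕ → ℕ → Bool, ∀ t, ∀ S ⊆ range (Nn j t), S.card = sz j t →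
    ¬ Hom (t + 3) (F χ t) S := by
  obtain ⟨χ, hχ⟩ := Pool.Agent.TH138.NF.exists_chi j
  refine ⟨χ, ?_⟩
  intro t
  induction t with
  | zero =>
    intro S hS hc hh
    obtain ⟨L, hL, hLc, c, hcL⟩ := base (M := 2 ^ j) (n := 4 * j + 4) hS hc hh
    have hLc' : L.card = (2 * j + 2) + (2 * j + 2) := by omega
    let ψ := L.orderEmbOfFin hLc'
    have hψ : ∀ i, ψ i ∈ L := fun i => orderEmbOfFin_mem L hLc' i
    obtain ⟨a, ha, b, hb, hne⟩ := hχ
      ((univ : Finset (Fin (2 * j + 2))).image (fun i => ψ (Fin.castAdd _ i)))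
      ((univ : Finset (Fin (2 * j + 2))).image (fun i => ψ (Fin.natAdd _ i)))
      (by
        intro a ha
        obtain ⟨i, _, rfl⟩ := mem_image.1 ha
        exact mem_range.1 (hL (hψ _)))
      (by
        intro a ha
        obtain ⟨i, _, rfl⟩ := mem_image.1 ha
        exact mem_range.1 (hL (hψ _)))
      (by
        rw [card_image_of_injective, card_univ, Fintype.card_fin]
        exact ψ.injective.comp (Fin.castAdd_injective _ _))
      (by
        rw [card_image_of_injective, card_univ, Fintype.card_fin]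
        exact ψ.injective.comp (Fin.natAdd_injective _ _)) c
    obtain ⟨i, _, rfl⟩ := mem_image.1 ha
    obtain ⟨i', _, rfl⟩ := mem_image.1 hb
    exact hne (hcL _ (hψ _) _ (hψ _) (ψ.strictMono (by
      rw [Fin.lt_def, Fin.val_castAdd, Fin.val_natAdd]
      omega)))
  | succ t ih =>
    intro S hS hc hh
    obtain ⟨L, hL, hLc, hh'⟩ := step (by decide) hS hc hh
    exact ih L hL hLc hh'

/-- The colouring of the `k`-subsets given by a function of the sorted vectors. -/
noncomputable def col (k : ℕ) (f : (Fin k → ℕ) → κ) (a : κ) (A : Finset ℕ) : κ :=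
  if h : A.card = k then f (A.orderEmbOfFin h) else a

theorem sorted_eq {k : ℕ} {x : Fin k → ℕ} (hx : StrictMono x) {A : Finset ℕ}
    (hA : univ.image x = A) (h : A.card = k) : (A.orderEmbOfFin h : Fin k → ℕ) = x := by
  subst hA
  exact (orderEmbOfFin_unique h (fun i => mem_image_of_mem _ (mem_univ i)) hx).symm

theorem col_image {k : ℕ} (f : (Fin k → ℕ) → κ) (a : κ) {x : Fin k → ℕ} (hx : StrictMono x) :
    col k f a (univ.image x) = f x := by
  have hc : (univ.image x).card = k := by
    rw [card_image_of_injective _ hx.injective, card_univ, Fintype.card_fin]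
  unfold col
  rw [dif_pos hc, sorted_eq hx rfl hc]

/-- All `k`-subsets of `S` have the same colour. -/
def Homogeneous (k : ℕ) (c : Finset ℕ → κ) (S : Finset ℕ) : Prop :=
  ∀ A ⊆ S, ∀ B ⊆ S, A.card = k → B.card = k → c A = c B

theorem hom_of_col {k : ℕ} {f : (Fin k → ℕ) → κ} {a : κ} {S : Finset ℕ}
    (h : Homogeneous k (col k f a) S) : Hom k f S := by
  by_cases hex : ∃ x : Fin k → ℕ, StrictMono x ∧ ∀ i, x i ∈ S
  · obtain ⟨x0, hx0, hx0S⟩ := hex
    refine ⟨f x0, fun x hx hxS => ?_⟩
    have hsub : ∀ y : Fin k → ℕ, (∀ i, y i ∈ S) → univ.image y ⊆ S := by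
      intro y hy w hw
      obtain ⟨i, _, rfl⟩ := mem_image.1 hw
      exact hy i
    have hcard : ∀ y : Fin k → ℕ, StrictMono y → (univ.image y).card = k := by
      intro y hy
      rw [card_image_of_injective _ hy.injective, card_univ, Fintype.card_fin]
    have := h _ (hsub x hxS) _ (hsub x0 hx0S) (hcard x hx) (hcard x0 hx0)
    rw [col_image f a hx, col_image f a hx0] at this
    exact this
  · exact ⟨a, fun x hx hxS => absurd ⟨x, hx, hxS⟩ hex⟩

theorem homogeneous_of_hom {k : ℕ} {φ : Finset ℕ → κ} {L : Finset ℕ}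
    (h : Hom k (fun u => φ (univ.image u)) L) : Homogeneous k φ L := by
  obtain ⟨χ, hχ⟩ := h
  have : ∀ A ⊆ L, A.card = k → φ A = χ := by
    intro A hA hc
    have h1 := hχ (A.orderEmbOfFin hc) (A.orderEmbOfFin hc).strictMono
      (fun i => hA (orderEmbOfFin_mem A hc i))
    have h2 : φ (univ.image (A.orderEmbOfFin hc)) = χ := h1
    rw [image_orderEmbOfFin_univ] at h2
    exact h2
  intro A hA B hB hAc hBc
  rw [this A hA hAc, this B hB hBc]

theorem col_inv {k : ℕ} {f : (Fin k → ℕ) → κ} {a : κ} {a' b' : ℕ} (ha : a' ≠ 0)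
    (h : ∀ u : Fin k → ℕ, StrictMono u → f (fun i => a' * u i + b') = f u) (A : Finset ℕ) :
    col k f a (A.image (fun x => a' * x + b')) = col k f a A := by
  have hinj : Function.Injective (fun x : ℕ => a' * x + b') := by
    intro x y hxy
    have : a' * x = a' * y := by simpa using hxy
    exact Nat.eq_of_mul_eq_mul_left (Nat.pos_of_ne_zero ha) this
  have hcard : (A.image (fun x => a' * x + b')).card = A.card := card_image_of_injective _ hinj
  by_cases hc : A.card = k
  · have hx := (A.orderEmbOfFin hc).strictMono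
    have e1 : A.image (fun x => a' * x + b') =
        univ.image (fun i => a' * A.orderEmbOfFin hc i + b') := by
      conv_lhs => rw [← image_orderEmbOfFin_univ A hc]
      rw [image_image]
      rfl
    have hmono : StrictMono (fun i => a' * A.orderEmbOfFin hc i + b') := by
      intro i j hij
      have := Nat.mul_lt_mul_of_pos_left (hx hij) (Nat.pos_of_ne_zero ha)
      show a' * _ + b' < a' * _ + b'
      omega
    rw [e1, col_image f a hmono, h _ hx]
    conv_rhs => rw [← image_orderEmbOfFin_univ A hc]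
    rw [col_image f a hx]
  · unfold col
    rw [dif_neg hc, dif_neg (by rw [hcard]; exact hc)]

end Pool.Agent.Q293.TI
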