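import Mathlib

/-!
# The exponent of two of a difference as an ultrametric; monotone chains

`d x y` is the exponent of two in `y - x`.
-/

set_option autoImplicit false

namespace Pool.Agent.Q293.TI

open Finset

/-- The exponent of two in `y - x`. -/
def d (x y : ℕ) : ℕ := padicValNat 2 (y - x)

/-- Possible values for a triple. -/
def Tri (p q r : ℕ) : Prop := (p < q ∧ r = p) ∨ (q < p ∧ r = q) ∨ (p = q ∧ p < r)

theorem Tri.symm {p q r : ℕ} (h : Tri p q r) : Tri q p r := by
  unfold Tri at *
  omega

theorem tri {x y z : ℕ} (h1 : x < y) (h2 : y < z) : Tri (d x y) (d y z) (d x z) := by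
  have ha : y - x ≠ 0 := by omega
  have hb : z - y ≠ 0 := by omega
  have hc : z - x ≠ 0 := by omega
  have e : z - x = (y - x) + (z - y) := by omega
  have fa : ∀ k, k ≤ d x y ↔ 2 ^ k ∣ y - x := fun k => (padicValNat_dvd_iff_le ha).symm
  have fb : ∀ k, k ≤ d y z ↔ 2 ^ k ∣ z - y := fun k => (padicValNat_dvd_iff_le hb).symm
  have fc : ∀ k, k ≤ d x z ↔ 2 ^ k ∣ z - x := fun k => (padicValNat_dvd_iff_le hc).symm
  have g1 : ∀ k, k ≤ d x y → k ≤ d y z → k ≤ d x z := by
    intro k h h'
    rw [fc, e]
    exact dvd_add ((fa k).1 h) ((fb k).1 h')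
  have g2 : ∀ k, k ≤ d x y → k ≤ d x z → k ≤ d y z := by
    intro k h h'
    rw [fb]
    have := (fc k).1 h'
    rw [e] at this
    exact (Nat.dvd_add_right ((fa k).1 h)).1 this
  have g3 : ∀ k, k ≤ d y z → k ≤ d x z → k ≤ d x y := by
    intro k h h'
    rw [fa]
    have := (fc k).1 h'
    rw [e] at this
    exact (Nat.dvd_add_left ((fb k).1 h)).1 this
  have g4 : d x y = d y z → d x y + 1 ≤ d x z := by
    intro h
    rw [fc, e]
    obtain ⟨u, hu⟩ := (fa (d x y)).1 le_rfl
    obtain ⟨w, hw⟩ := (fb (d x y)).1 (by omega)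
    have hu' : ¬ 2 ∣ u := by
      rintro ⟨u', rfl⟩
      have : d x y + 1 ≤ d x y := by
        rw [fa]
        exact ⟨u', by rw [hu, pow_succ]; ring⟩
      omega
    have hw' : ¬ 2 ∣ w := by
      rintro ⟨w', rfl⟩
      have : d x y + 1 ≤ d y z := by
        rw [fb]
        exact ⟨w', by rw [hw, pow_succ]; ring⟩
      omega
    obtain ⟨t, ht⟩ : 2 ∣ u + w := by omega
    exact ⟨t, by rw [hu, hw, ← mul_add, ht, pow_succ]; ring⟩
  unfold Tri
  rcases lt_trichotomy (d x y) (d y z) with h | h | h
  · left
    refine ⟨h, le_antisymm ?_ (g1 _ le_rfl h.le)⟩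
    by_contra hlt
    have := g3 (d x y + 1) (by omega) (by omega)
    omega
  · right; right
    exact ⟨h, g4 h⟩
  · right; left
    refine ⟨h, le_antisymm ?_ (g1 _ h.le le_rfl)⟩
    by_contra hlt
    have := g2 (d y z + 1) (by omega) (by omega)
    omega

theorem d_lt {x y M : ℕ} (h : x < y) (hy : y < 2 ^ M) : d x y < M := by
  by_contra hlt
  have h1 : 2 ^ M ∣ y - x := (padicValNat_dvd_iff_le (by omega)).2 (not_lt.1 hlt)
  have := Nat.le_of_dvd (by omega) h1
  omega

section chain

variable {α : Type} [LinearOrder α] (e : α → α → ℕ)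

/-- All triples have `e a b ≤ e b c`. -/
def LeT (T : Finset α) : Prop :=
  ∀ a ∈ T, ∀ b ∈ T, ∀ c ∈ T, a < b → b < c → e a b ≤ e b c

/-- All triples have `e a b < e b c`. -/
def LtT (T : Finset α) : Prop :=
  ∀ a ∈ T, ∀ b ∈ T, ∀ c ∈ T, a < b → b < c → e a b < e b c

variable {e}

theorem LtT.insert_min {T : Finset α} {x : α} (hx : ∀ b ∈ T, x < b) (h : LtT e T)
    (h' : ∀ b ∈ T, ∀ c ∈ T, b < c → e x b < e b c) : LtT e (insert x T) := by
  intro a ha b hb c hc hab hbc
  rw [mem_insert] at ha hb hc
  rcases hb with rfl | hb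
  · rcases ha with rfl | ha
    · exact absurd hab (lt_irrefl _)
    · exact absurd hab (not_lt.2 (hx a ha).le)
  rcases hc with rfl | hc
  · exact absurd hbc (not_lt.2 (hx b hb).le)
  rcases ha with rfl | ha
  · exact h' b hb c hc hbc
  · exact h a ha b hb c hc hab hbc

theorem chain_le (he : ∀ x y z, x < y → y < z → Tri (e x y) (e y z) (e x z)) :
    ∀ (n : ℕ) (T : Finset α), T.card = n → LeT e T → ∃ T' ⊆ T, n ≤ 2 * T'.card ∧ LtT e T' := by
  intro n
  induction n using Nat.strong_induction_on with
  | _ n ih =>
    intro T hT hle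
    rcases Nat.lt_or_ge n 2 with h2 | h2
    · refine ⟨T, Subset.refl _, by omega, ?_⟩
      intro a ha b hb c hc hab hbc
      have : ({a, b} : Finset α).card ≤ T.card := card_le_card (by
        intro w hw
        rw [mem_insert, mem_singleton] at hw
        rcases hw with rfl | rfl <;> assumption)
      rw [card_pair hab.ne] at this
      omega
    · have hne : T.Nonempty := card_pos.1 (by omega)
      set x := T.min' hne with hx
      have hxT : x ∈ T := min'_mem _ _
      set T1 := T.erase x with hT1
      have hc1 : T1.card = n - 1 := by rw [card_erase_of_mem hxT, hT]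
      have hne1 : T1.Nonempty := card_pos.1 (by omega)
      set y := T1.min' hne1 with hy
      have hyT1 : y ∈ T1 := min'_mem _ _
      set T2 := T1.erase y with hT2
      have hc2 : T2.card = n - 2 := by rw [card_erase_of_mem hyT1, hc1]; omega
      have hsub2 : T2 ⊆ T := (erase_subset _ _).trans (erase_subset _ _)
      have hyT : y ∈ T := erase_subset _ _ hyT1
      have hxy : x < y := lt_of_le_of_ne (min'_le _ _ hyT) (ne_of_mem_erase hyT1).symm
      have hyb : ∀ b ∈ T2, y < b := fun b hb =>
        lt_of_le_of_ne (min'_le _ _ (erase_subset _ _ hb)) (ne_of_mem_erase hb).symm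
      obtain ⟨T', hT', hcT', hlt⟩ := ih (n - 2) (by omega) T2 hc2
        (fun a ha b hb c hc => hle a (hsub2 ha) b (hsub2 hb) c (hsub2 hc))
      have hT'T : T' ⊆ T := hT'.trans hsub2
      by_cases hcase : ∃ b ∈ T', e y b = e x y
      · -- then `y` may be added
        obtain ⟨b0, hb0, hb0e⟩ := hcase
        have hall : ∀ b ∈ T', e y b = e x y := by
          intro b1 hb1
          by_contra hne1
          have hy0 := hyb b0 (hT' hb0)
          have hy1 := hyb b1 (hT' hb1)
          have l1 := hle x hxT y hyT b1 (hT'T hb1) hxy hy1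
          have t0 := he x y b0 hxy hy0
          rcases lt_trichotomy b0 b1 with h | h | h
          · have t1 := he y b0 b1 hy0 h
            have l2 := hle x hxT b0 (hT'T hb0) b1 (hT'T hb1) (hxy.trans hy0) h
            unfold Tri at t0 t1
            omega
          · subst h
            exact hne1 hb0e
          · have t1 := he y b1 b0 hy1 h
            have l2 := hle y hyT b1 (hT'T hb1) b0 (hT'T hb0) hy1 h
            unfold Tri at t0 t1
            omega
        refine ⟨insert y T', insert_subset hyT hT'T, ?_, ?_⟩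
        · rw [card_insert_of_notMem (fun h => lt_irrefl _ (hyb y (hT' h)))]
          omega
        · refine LtT.insert_min (fun b hb => hyb b (hT' hb)) hlt ?_
          intro b hb c hc hbc
          have hyb' := hyb b (hT' hb)
          have l2 := hle x hxT b (hT'T hb) c (hT'T hc) (hxy.trans hyb') hbc
          have t0 := he x y b hxy hyb'
          have := hall b hb
          unfold Tri at t0
          omega
      · push Not at hcase
        refine ⟨insert x T', insert_subset hxT hT'T, ?_, ?_⟩
        · rw [card_insert_of_notMem (fun h => lt_irrefl _ (hxy.trans (hyb x (hT' h))))]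
          omega
        · refine LtT.insert_min (fun b hb => hxy.trans (hyb b (hT' hb))) hlt ?_
          intro b hb c hc hbc
          have hyb' := hyb b (hT' hb)
          have l1 := hle x hxT y hyT b (hT'T hb) hxy hyb'
          have l2 := hle y hyT b (hT'T hb) c (hT'T hc) hyb' hbc
          have t0 := he x y b hxy hyb'
          have := hcase b hb
          unfold Tri at t0
          omega

end chain

end Pool.Agent.Q293.TI
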